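import Pool.Agent.Work.MP_e487d8_al.Y.Stmt

/-! MP_e487d8_al: quiver Hecke (KLR) algebras of symmetrisable type, all numbers of strands at once.

`KLRAlg D` is the `K`-algebra generated by `e k i`, `x k`, `t k` (`k` a natural number, `i` in `I`)
subject to the local KLR relations. The strands are numbered `0, 1, 2, ...`; `e k i` says that the
strand number `k` exists and has colour `i`, and `E k = ∑ i, e k i` (strand `k` exists) is a central
idempotent. A module over the KLR algebra `R(n) = ⊕_{|β| = n} R(β)` is the same as a module over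
`KLRAlg D` on which `E k` acts by `1` for `k < n` and `e k i` acts by `0` for `k ≥ n`
(`IsStrand n`). -/

set_option autoImplicit false

namespace Pool.Agent.KLS

/-- the generators -/
inductive Gen (I : Type) : Type
  | e (k : ℕ) (i : I) : Gen I
  | x (k : ℕ) : Gen I
  | t (k : ℕ) : Gen I

section QE

variable {K I : Type} [Field K]

/-- `Q_{ij}(x, y)` in an algebra -/
noncomputable def Datum.QE (D : Datum K I) (i j : I) {B : Type*} [Ring B] [Algebra K B]
    (x y : B) : B :=
  ∑ p ∈ Finset.range (D.nq i j + 1), ∑ q ∈ Finset.range (D.nq j i + 1),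
    D.Q i j p q • (x ^ p * y ^ q)

/-- `(Q_{ij}(x, y) - Q_{ij}(z, y)) / (x - z)` in an algebra -/
noncomputable def Datum.QD (D : Datum K I) (i j : I) {B : Type*} [Ring B] [Algebra K B]
    (x z y : B) : B :=
  ∑ p ∈ Finset.range (D.nq i j + 1), ∑ q ∈ Finset.range (D.nq j i + 1),
    D.Q i j p q • ((∑ r ∈ Finset.range p, x ^ r * z ^ (p - 1 - r)) * y ^ q)

variable (D : Datum K I) (i j : I) {B B' : Type*} [Ring B] [Algebra K B] [Ring B'] [Algebra K B']

@[simp] theorem map_QE (f : B →ₐ[K] B') (x y : B) : f (D.QE i j x y) = D.QE i j (f x) (f y) := by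
  simp [Datum.QE]

@[simp] theorem map_QD (f : B →ₐ[K] B') (x z y : B) :
    f (D.QD i j x z y) = D.QD i j (f x) (f z) (f y) := by
  simp [Datum.QD]

variable {D i j}

theorem Datum.commute_QE {a x y : B} (hx : Commute a x) (hy : Commute a y) :
    Commute a (D.QE i j x y) :=
  Commute.sum_right _ _ _ fun p _ => Commute.sum_right _ _ _ fun q _ =>
    ((hx.pow_right p).mul_right (hy.pow_right q)).smul_right _

theorem Datum.commute_QD {a x z y : B} (hx : Commute a x) (hz : Commute a z) (hy : Commute a y) :
    Commute a (D.QD i j x z y) :=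
  Commute.sum_right _ _ _ fun p _ => Commute.sum_right _ _ _ fun q _ =>
    ((Commute.sum_right _ _ _ fun r _ => (hx.pow_right r).mul_right
      (hz.pow_right (p - 1 - r))).mul_right (hy.pow_right q)).smul_right _

theorem Datum.QE_semi {a x y x' y' : B} (hx : a * x = x' * a) (hy : a * y = y' * a) :
    a * D.QE i j x y = D.QE i j x' y' * a := by
  have h1 : SemiconjBy a x x' := hx
  have h2 : SemiconjBy a y y' := hy
  unfold Datum.QE
  rw [Finset.mul_sum, Finset.sum_mul]
  refine Finset.sum_congr rfl fun p _ => ?_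
  rw [Finset.mul_sum, Finset.sum_mul]
  refine Finset.sum_congr rfl fun q _ => ?_
  rw [mul_smul_comm, smul_mul_assoc]
  congr 1
  exact ((h1.pow_right p).mul_right (h2.pow_right q)).eq

theorem Datum.QD_semi {a x z y x' z' y' : B} (hx : a * x = x' * a) (hz : a * z = z' * a)
    (hy : a * y = y' * a) : a * D.QD i j x z y = D.QD i j x' z' y' * a := by
  have h1 : SemiconjBy a x x' := hx
  have h2 : SemiconjBy a y y' := hy
  have h3 : SemiconjBy a z z' := hz
  unfold Datum.QD
  rw [Finset.mul_sum, Finset.sum_mul]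
  refine Finset.sum_congr rfl fun p _ => ?_
  rw [Finset.mul_sum, Finset.sum_mul]
  refine Finset.sum_congr rfl fun q _ => ?_
  rw [mul_smul_comm, smul_mul_assoc]
  congr 1
  have h4 : SemiconjBy a (∑ r ∈ Finset.range p, x ^ r * z ^ (p - 1 - r))
      (∑ r ∈ Finset.range p, x' ^ r * z' ^ (p - 1 - r)) := by
    rw [SemiconjBy, Finset.mul_sum, Finset.sum_mul]
    exact Finset.sum_congr rfl fun r _ =>
      ((h1.pow_right r).mul_right (h3.pow_right (p - 1 - r))).eq
  exact (h4.mul_right (h2.pow_right q)).eq

/-- `Q_{ij}(x, y) = Q_{ji}(y, x)` -/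
theorem Datum.QE_symm (hij : i ≠ j) {x y : B} (h : Commute x y) : D.QE i j x y = D.QE j i y x := by
  unfold Datum.QE
  rw [Finset.sum_comm]
  refine Finset.sum_congr rfl fun q _ => Finset.sum_congr rfl fun p _ => ?_
  rw [D.Q_symm i j p q hij, (h.pow_pow p q).eq]

/-- `(x - z) * QD = Q_{ij}(x, y) - Q_{ij}(z, y)` -/
theorem Datum.sub_mul_QD {x z y : B} (h : Commute x z) :
    (x - z) * D.QD i j x z y = D.QE i j x y - D.QE i j z y := by
  unfold Datum.QD Datum.QE
  rw [Finset.mul_sum, ← Finset.sum_sub_distrib]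
  refine Finset.sum_congr rfl fun p _ => ?_
  rw [Finset.mul_sum, ← Finset.sum_sub_distrib]
  refine Finset.sum_congr rfl fun q _ => ?_
  rw [mul_smul_comm, ← mul_assoc, h.mul_geom_sum₂, ← smul_sub, sub_mul]

theorem Datum.QD_swap {x z y : B} (h : Commute x z) :
    D.QD i j x z y = D.QD i j z x y := by
  unfold Datum.QD
  refine Finset.sum_congr rfl fun p _ => Finset.sum_congr rfl fun q _ => ?_
  rw [h.geom_sum₂_comm]

theorem Datum.QD_mul_sub {x z y : B} (h : Commute x z) (hy : Commute x y) (hzy : Commute z y) :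
    D.QD i j x z y * (x - z) = D.QE i j x y - D.QE i j z y := by
  rw [← Datum.sub_mul_QD h]
  exact ((Datum.commute_QD ((Commute.refl x).sub_left h.symm) (h.sub_left (Commute.refl z))
    (hy.sub_left hzy)).eq).symm

end QE

variable {K I : Type} [Field K] [Fintype I] [DecidableEq I]

/-- the KLR relations for families `e`, `x`, `t` of elements of an algebra -/
structure Rels (D : Datum K I) {B : Type*} [Ring B] [Algebra K B] (e : ℕ → I → B) (x t : ℕ → B) :
    Prop where
  ee : ∀ k i j, e k i * e k j = if i = j then e k i else 0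
  ee_comm : ∀ k l i j, e k i * e l j = e l j * e k i
  xx : ∀ k l, x k * x l = x l * x k
  xe : ∀ k l i, x k * e l i = e l i * x k
  xE : ∀ k, x k * ∑ i, e k i = x k
  tE : ∀ k, t k * ∑ i, e k i = t k
  tE' : ∀ k, t k * ∑ i, e (k + 1) i = t k
  te0 : ∀ k i, t k * e k i = e (k + 1) i * t k
  te1 : ∀ k i, t k * e (k + 1) i = e k i * t k
  te : ∀ k l i, l ≠ k → l ≠ k + 1 → t k * e l i = e l i * t k
  tx : ∀ k l, l ≠ k → l ≠ k + 1 → t k * x l = x l * t k
  tx0 : ∀ k, t k * x k = x (k + 1) * t k - ∑ i, e k i * e (k + 1) i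
  tx1 : ∀ k, t k * x (k + 1) = x k * t k + ∑ i, e k i * e (k + 1) i
  tt : ∀ k, t k * t k = ∑ i, ∑ j, if i = j then 0 else
    D.QE i j (x k) (x (k + 1)) * (e k i * e (k + 1) j)
  far : ∀ k l, k + 1 < l → t k * t l = t l * t k
  braid : ∀ k, t (k + 1) * t k * t (k + 1) - t k * t (k + 1) * t k =
    ∑ i, ∑ j, if i = j then 0 else
      D.QD i j (x k) (x (k + 2)) (x (k + 1)) * (e k i * e (k + 1) j * e (k + 2) i)

/-- generators of the free algebra -/
abbrev fe (K : Type) [Field K] {I : Type} (k : ℕ) (i : I) : FreeAlgebra K (Gen I) :=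
  FreeAlgebra.ι K (Gen.e k i)
/-- generators of the free algebra -/
abbrev fx (K : Type) [Field K] (I : Type) (k : ℕ) : FreeAlgebra K (Gen I) :=
  FreeAlgebra.ι K (Gen.x k)
/-- generators of the free algebra -/
abbrev ft (K : Type) [Field K] (I : Type) (k : ℕ) : FreeAlgebra K (Gen I) :=
  FreeAlgebra.ι K (Gen.t k)

/-- the KLR relations as a relation on the free algebra -/
inductive Rel (D : Datum K I) : FreeAlgebra K (Gen I) → FreeAlgebra K (Gen I) → Prop
  | ee (k : ℕ) (i j : I) : Rel D (fe K k i * fe K k j) (if i = j then fe K k i else 0)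
  | ee_comm (k l : ℕ) (i j : I) : Rel D (fe K k i * fe K l j) (fe K l j * fe K k i)
  | xx (k l : ℕ) : Rel D (fx K I k * fx K I l) (fx K I l * fx K I k)
  | xe (k l : ℕ) (i : I) : Rel D (fx K I k * fe K l i) (fe K l i * fx K I k)
  | xE (k : ℕ) : Rel D (fx K I k * ∑ i, fe K k i) (fx K I k)
  | tE (k : ℕ) : Rel D (ft K I k * ∑ i, fe K k i) (ft K I k)
  | tE' (k : ℕ) : Rel D (ft K I k * ∑ i, fe K (k + 1) i) (ft K I k)
  | te0 (k : ℕ) (i : I) : Rel D (ft K I k * fe K k i) (fe K (k + 1) i * ft K I k)
  | te1 (k : ℕ) (i : I) : Rel D (ft K I k * fe K (k + 1) i) (fe K k i * ft K I k)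
  | te (k l : ℕ) (i : I) (h : l ≠ k) (h' : l ≠ k + 1) :
      Rel D (ft K I k * fe K l i) (fe K l i * ft K I k)
  | tx (k l : ℕ) (h : l ≠ k) (h' : l ≠ k + 1) :
      Rel D (ft K I k * fx K I l) (fx K I l * ft K I k)
  | tx0 (k : ℕ) : Rel D (ft K I k * fx K I k)
      (fx K I (k + 1) * ft K I k - ∑ i, fe K k i * fe K (k + 1) i)
  | tx1 (k : ℕ) : Rel D (ft K I k * fx K I (k + 1))
      (fx K I k * ft K I k + ∑ i, fe K k i * fe K (k + 1) i)
  | tt (k : ℕ) : Rel D (ft K I k * ft K I k) (∑ i, ∑ j, if i = j then 0 else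
      D.QE i j (fx K I k) (fx K I (k + 1)) * (fe K k i * fe K (k + 1) j))
  | far (k l : ℕ) (h : k + 1 < l) : Rel D (ft K I k * ft K I l) (ft K I l * ft K I k)
  | braid (k : ℕ) : Rel D
      (ft K I (k + 1) * ft K I k * ft K I (k + 1) - ft K I k * ft K I (k + 1) * ft K I k)
      (∑ i, ∑ j, if i = j then 0 else
        D.QD i j (fx K I k) (fx K I (k + 2)) (fx K I (k + 1)) *
          (fe K k i * fe K (k + 1) j * fe K (k + 2) i))

/-- the quiver Hecke algebra (for all numbers of strands at once) -/
def KLRAlg (D : Datum K I) : Type := RingQuot (Rel D)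

noncomputable instance (D : Datum K I) : Ring (KLRAlg D) :=
  inferInstanceAs (Ring (RingQuot (Rel D)))
noncomputable instance (D : Datum K I) : Algebra K (KLRAlg D) :=
  inferInstanceAs (Algebra K (RingQuot (Rel D)))

/-- the quotient map -/
noncomputable def mkD (D : Datum K I) : FreeAlgebra K (Gen I) →ₐ[K] KLRAlg D :=
  RingQuot.mkAlgHom K (Rel D)

theorem mkD_rel {D : Datum K I} {a b : FreeAlgebra K (Gen I)} (h : Rel D a b) :
    mkD D a = mkD D b := RingQuot.mkAlgHom_rel K h

theorem mkD_surjective (D : Datum K I) : Function.Surjective (mkD D) :=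
  RingQuot.mkAlgHom_surjective K (Rel D)

namespace Datum

variable (D : Datum K I)

/-- strand `k` exists and has colour `i` -/
noncomputable def e (k : ℕ) (i : I) : KLRAlg D := mkD D (fe K k i)
/-- the dot on strand `k` -/
noncomputable def x (k : ℕ) : KLRAlg D := mkD D (fx K I k)
/-- the crossing of the strands `k` and `k + 1` -/
noncomputable def t (k : ℕ) : KLRAlg D := mkD D (ft K I k)
/-- strand `k` exists -/
noncomputable def E (k : ℕ) : KLRAlg D := ∑ i, D.e k i
/-- the strands `k` and `k + 1` exist and have the same colour -/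
noncomputable def dl (k : ℕ) : KLRAlg D := ∑ i, D.e k i * D.e (k + 1) i

theorem rels : Rels D D.e D.x D.t where
  ee k i j := by
    have h := mkD_rel (Rel.ee (D := D) k i j)
    rw [map_mul] at h
    refine h.trans ?_
    split_ifs
    · rfl
    · exact map_zero _
  ee_comm k l i j := by
    have h := mkD_rel (Rel.ee_comm (D := D) k l i j)
    simp only [map_mul] at h
    exact h
  xx k l := by
    have h := mkD_rel (Rel.xx (D := D) k l)
    simp only [map_mul] at h
    exact h
  xe k l i := by
    have h := mkD_rel (Rel.xe (D := D) k l i)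
    simp only [map_mul] at h
    exact h
  xE k := by
    have h := mkD_rel (Rel.xE (D := D) k)
    simp only [map_mul, map_sum] at h
    exact h
  tE k := by
    have h := mkD_rel (Rel.tE (D := D) k)
    simp only [map_mul, map_sum] at h
    exact h
  tE' k := by
    have h := mkD_rel (Rel.tE' (D := D) k)
    simp only [map_mul, map_sum] at h
    exact h
  te0 k i := by
    have h := mkD_rel (Rel.te0 (D := D) k i)
    simp only [map_mul] at h
    exact h
  te1 k i := by
    have h := mkD_rel (Rel.te1 (D := D) k i)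
    simp only [map_mul] at h
    exact h
  te k l i h1 h2 := by
    have h := mkD_rel (Rel.te (D := D) k l i h1 h2)
    simp only [map_mul] at h
    exact h
  tx k l h1 h2 := by
    have h := mkD_rel (Rel.tx (D := D) k l h1 h2)
    simp only [map_mul] at h
    exact h
  tx0 k := by
    have h := mkD_rel (Rel.tx0 (D := D) k)
    simp only [map_mul, map_sub, map_sum] at h
    exact h
  tx1 k := by
    have h := mkD_rel (Rel.tx1 (D := D) k)
    simp only [map_mul, map_add, map_sum] at h
    exact h
  tt k := by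
    have h := mkD_rel (Rel.tt (D := D) k)
    simp only [map_mul, map_sub, map_sum, apply_ite (mkD D), map_zero, map_QE, map_QD] at h
    exact h
  far k l h1 := by
    have h := mkD_rel (Rel.far (D := D) k l h1)
    simp only [map_mul] at h
    exact h
  braid k := by
    have h := mkD_rel (Rel.braid (D := D) k)
    simp only [map_mul, map_sub, map_sum, apply_ite (mkD D), map_zero, map_QE, map_QD] at h
    exact h

end Datum

section lift

variable {D : Datum K I} {B : Type*} [Ring B] [Algebra K B] {e : ℕ → I → B} {x t : ℕ → B}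

/-- the map on generators -/
def genMap (e : ℕ → I → B) (x t : ℕ → B) : Gen I → B
  | Gen.e k i => e k i
  | Gen.x k => x k
  | Gen.t k => t k

theorem lift_rel (h : Rels D e x t) ⦃a b : FreeAlgebra K (Gen I)⦄ (hab : Rel D a b) :
    FreeAlgebra.lift K (genMap e x t) a = FreeAlgebra.lift K (genMap e x t) b := by
  induction hab with
  | ee k i j =>
    rw [map_mul, apply_ite (FreeAlgebra.lift K (genMap e x t)), map_zero]
    simpa [genMap] using h.ee k i j
  | ee_comm k l i j => simpa [genMap] using h.ee_comm k l i j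
  | xx k l => simpa [genMap] using h.xx k l
  | xe k l i => simpa [genMap] using h.xe k l i
  | xE k => simpa [genMap] using h.xE k
  | tE k => simpa [genMap] using h.tE k
  | tE' k => simpa [genMap] using h.tE' k
  | te0 k i => simpa [genMap] using h.te0 k i
  | te1 k i => simpa [genMap] using h.te1 k i
  | te k l i h1 h2 => simpa [genMap] using h.te k l i h1 h2
  | tx k l h1 h2 => simpa [genMap] using h.tx k l h1 h2
  | tx0 k => simpa [genMap] using h.tx0 k
  | tx1 k => simpa [genMap] using h.tx1 k
  | tt k =>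
    simp only [map_mul, map_sum, map_sub, apply_ite (FreeAlgebra.lift K (genMap e x t)),
      map_zero, map_QE, map_QD, FreeAlgebra.lift_ι_apply, genMap]
    exact h.tt k
  | far k l h1 => simpa [genMap] using h.far k l h1
  | braid k =>
    simp only [map_mul, map_sum, map_sub, apply_ite (FreeAlgebra.lift K (genMap e x t)),
      map_zero, map_QE, map_QD, FreeAlgebra.lift_ι_apply, genMap]
    exact h.braid k

/-- universal property of the KLR algebra -/
noncomputable def liftHom (h : Rels D e x t) : KLRAlg D →ₐ[K] B :=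
  RingQuot.liftAlgHom K ⟨FreeAlgebra.lift K (genMap e x t), lift_rel h⟩

theorem liftHom_mkD (h : Rels D e x t) (a : FreeAlgebra K (Gen I)) :
    liftHom h (mkD D a) = FreeAlgebra.lift K (genMap e x t) a :=
  RingQuot.liftAlgHom_mkAlgHom_apply K _ (lift_rel h) a

@[simp] theorem liftHom_e (h : Rels D e x t) (k : ℕ) (i : I) : liftHom h (D.e k i) = e k i := by
  unfold Datum.e
  rw [liftHom_mkD]
  simp [genMap]

@[simp] theorem liftHom_x (h : Rels D e x t) (k : ℕ) : liftHom h (D.x k) = x k := by
  unfold Datum.x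
  rw [liftHom_mkD]
  simp [genMap]

@[simp] theorem liftHom_t (h : Rels D e x t) (k : ℕ) : liftHom h (D.t k) = t k := by
  unfold Datum.t
  rw [liftHom_mkD]
  simp [genMap]

theorem hom_ext {f g : KLRAlg D →ₐ[K] B} (he : ∀ k i, f (D.e k i) = g (D.e k i))
    (hx : ∀ k, f (D.x k) = g (D.x k)) (ht : ∀ k, f (D.t k) = g (D.t k)) : f = g := by
  have h : f.comp (mkD D) = g.comp (mkD D) := by
    refine FreeAlgebra.hom_ext ?_
    funext y
    cases y with
    | e k i => exact he k i
    | x k => exact hx k
    | t k => exact ht k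
  ext a
  obtain ⟨b, rfl⟩ := mkD_surjective D a
  exact DFunLike.congr_fun h b

end lift

/-- induction principle: a property which holds for scalars and generators and is stable under
sums and products holds for all elements -/
theorem KLRAlg.induction {D : Datum K I} {P : KLRAlg D → Prop}
    (hs : ∀ r : K, P (algebraMap K _ r)) (he : ∀ k i, P (D.e k i)) (hx : ∀ k, P (D.x k))
    (ht : ∀ k, P (D.t k)) (hadd : ∀ a b, P a → P b → P (a + b))
    (hmul : ∀ a b, P a → P b → P (a * b)) (a : KLRAlg D) : P a := by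
  obtain ⟨b, rfl⟩ := mkD_surjective D a
  induction b using FreeAlgebra.induction with
  | grade0 r => rw [AlgHom.commutes]; exact hs r
  | grade1 y =>
    cases y with
    | e k i => exact he k i
    | x k => exact hx k
    | t k => exact ht k
  | mul a b ha hb => rw [map_mul]; exact hmul _ _ ha hb
  | add a b ha hb => rw [map_add]; exact hadd _ _ ha hb

end Pool.Agent.KLS
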